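import Mathlib

set_option autoImplicit false

namespace Pool.Agent.Results.MP_a38e10_co.GapThree

open SimpleGraph Finset

/-- the vertices split into at most `m` parts, each a clique or an independent set -/
def Cocolorable {V : Type} (G : SimpleGraph V) (m : ℕ) : Prop :=
  ∃ c : V → Fin m, ∀ i, G.IsClique {v | c v = i} ∨ G.IsIndepSet {v | c v = i}

def NoK5 {V : Type} (G : SimpleGraph V) : Prop :=
  ∀ f : Fin 5 → V, ¬ ∀ i j, i ≠ j → G.Adj (f i) (f j)

theorem NoK5.card_le {V : Type} {G : SimpleGraph V} (h : NoK5 G) {s : Finset V}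
    (hs : G.IsClique (s : Set V)) : s.card ≤ 4 := by
  by_contra hc
  obtain ⟨f, hf⟩ := Function.Embedding.exists_of_card_le_finset (α := Fin 5) (s := s)
    (by simp; omega)
  exact h f fun i j hij => hs (hf ⟨i, rfl⟩) (hf ⟨j, rfl⟩) (f.injective.ne hij)

theorem col_of {V α : Type} {G : SimpleGraph V} [Fintype α] {n : ℕ} (hn : Fintype.card α ≤ n)
    (c : V → α) (h : ∀ u v, G.Adj u v → c u ≠ c v) : G.Colorable n :=
  (Coloring.mk c (fun {u v} => h u v)).colorable.mono hn

structure Good (j : ℕ) {V : Type} (G : SimpleGraph V) (p : V → ℕ) (q : V → Fin 6) : Prop where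
  k5 : NoK5 G
  nc : ¬ G.Colorable (j + 5)
  lt : ∀ v, p v < j + 3
  cl : ∀ u v, u ≠ v → p u = p v → p u < 3 → G.Adj u v
  ind : ∀ u v, G.Adj u v → p u = p v → p u < 3
  six : ∀ u v, G.Adj u v → p u < 3 → p v < 3 → q u ≠ q v

/-! ### base -/

def b0 (x y : Fin 13) : Bool :=
  let d := (x.val + 13 - y.val) % 13
  d != 0 && d != 1 && d != 5 && d != 8 && d != 12

def G0 : SimpleGraph (Fin 13) where
  Adj x y := b0 x y = true
  symm := ⟨by decide +kernel⟩
  loopless := ⟨by decide +kernel⟩

theorem base : Good 1 G0 ![0, 1, 0, 1, 2, 1, 2, 1, 2, 0, 2, 0, 3]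
    ![0, 0, 1, 1, 2, 2, 3, 3, 4, 4, 5, 5, 0] := by
  refine ⟨?_, ?_, by decide, ?_, ?_, ?_⟩
  · intro f hf
    have key : ∀ a b : Fin 13, b0 a b = true → ∀ c, b0 a c = true → b0 b c = true →
        ∀ d, b0 a d = true → b0 b d = true → b0 c d = true →
        ∀ e, b0 a e = true → b0 b e = true → b0 c e = true → b0 d e = false := by
      decide +kernel
    have := key (f 0) (f 1) (hf 0 1 (by decide)) (f 2) (hf 0 2 (by decide)) (hf 1 2 (by decide))
      (f 3) (hf 0 3 (by decide)) (hf 1 3 (by decide)) (hf 2 3 (by decide)) (f 4)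
      (hf 0 4 (by decide)) (hf 1 4 (by decide)) (hf 2 4 (by decide))
    have h2 : b0 (f 3) (f 4) = true := hf 3 4 (by decide)
    rw [h2] at this
    exact absurd this (by simp)
  · rintro ⟨C⟩
    obtain ⟨y, hy⟩ := Fintype.exists_lt_card_fiber_of_mul_lt_card (fun x => C x) (n := 2) (by simp)
    obtain ⟨a, ha, b, hb, c, hc, hab, hac, hbc⟩ := two_lt_card.1 hy
    simp only [mem_filter, mem_univ, true_and] at ha hb hc
    have key : ∀ a b c : Fin 13, a ≠ b → a ≠ c → b ≠ c →
        b0 a b = true ∨ b0 a c = true ∨ b0 b c = true := by decide +kernel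
    rcases key a b c hab hac hbc with h | h | h
    · exact C.valid (show G0.Adj a b from h) (ha.trans hb.symm)
    · exact C.valid (show G0.Adj a c from h) (ha.trans hc.symm)
    · exact C.valid (show G0.Adj b c from h) (hb.trans hc.symm)
  · show ∀ u v : Fin 13, _ → _ → _ → b0 u v = true
    decide +kernel
  · show ∀ u v : Fin 13, b0 u v = true → _
    decide +kernel
  · show ∀ u v : Fin 13, b0 u v = true → _
    decide +kernel

/-! ### Mycielski step -/

def mrel {V : Type} (G : SimpleGraph V) : Option (V × Bool) → Option (V × Bool) → Prop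
  | none, none => False
  | none, some y => y.2 = true
  | some x, none => x.2 = true
  | some x, some y => G.Adj x.1 y.1 ∧ (x.2 = false ∨ y.2 = false)

def Myc {V : Type} (G : SimpleGraph V) : SimpleGraph (Option (V × Bool)) where
  Adj := mrel G
  symm := ⟨by
    rintro (_ | x) (_ | y) h
    · exact h
    · exact h
    · exact h
    · exact ⟨h.1.symm, h.2.symm⟩⟩
  loopless := ⟨by
    rintro (_ | x) h
    · exact h
    · exact G.irrefl h.1⟩

theorem step {j : ℕ} (hj : 1 ≤ j) {V : Type} {G : SimpleGraph V} {p : V → ℕ} {q : V → Fin 6}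
    (h : Good j G p q) : Good (j + 1) (Myc G)
      (fun x => x.elim 3 fun y => if y.2 then j + 3 else p y.1)
      (fun x => x.elim 0 fun y => q y.1) := by
  refine ⟨?_, ?_, ?_, ?_, ?_, ?_⟩
  · intro f hf
    have hne : ∀ i, f i ≠ none := by
      intro i hi
      obtain ⟨a, b, h1, h2, h3⟩ : ∃ a b : Fin 5, i ≠ a ∧ i ≠ b ∧ a ≠ b := by
        clear hi; revert i; decide
      have e1 := hf _ _ h1
      have e2 := hf _ _ h2
      have e3 := hf _ _ h3
      rw [hi] at e1 e2
      rcases ha : f a with _ | x <;> rcases hb : f b with _ | y <;>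
        simp_all [Myc, mrel]
    choose g hg using fun i => Option.ne_none_iff_exists'.1 (hne i)
    refine h.k5 (fun i => (g i).1) fun a b hab => ?_
    have := hf a b hab
    rw [hg, hg] at this
    exact this.1
  · rintro ⟨C⟩
    refine h.nc (col_of (α := {x : Fin (j + 1 + 5) // x ≠ C none}) (by simp)
      (fun v => if hv : C (some (v, false)) = C none then ⟨C (some (v, true)),
        C.valid (show (Myc G).Adj (some (v, true)) none from rfl)⟩ else ⟨_, hv⟩) fun u v huv => ?_)
    have e1 := C.valid (show (Myc G).Adj (some (u, false)) (some (v, false)) from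
      ⟨huv, Or.inl rfl⟩)
    have e2 := C.valid (show (Myc G).Adj (some (u, true)) (some (v, false)) from
      ⟨huv, Or.inr rfl⟩)
    have e3 := C.valid (show (Myc G).Adj (some (u, false)) (some (v, true)) from
      ⟨huv, Or.inl rfl⟩)
    split_ifs with h1 h2 h2
    · exact absurd (h1.trans h2.symm) e1
    · simpa using e2
    · simpa using e3
    · simpa using e1
  · rintro (_ | ⟨v, _ | _⟩)
    · simp
    · have := h.lt v; simp; omega
    · simp
  · rintro (_ | ⟨u, _ | _⟩) (_ | ⟨v, _ | _⟩) h1 h2 h3 <;> simp at h1 h2 h3 <;> try omega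
    exact ⟨h.cl u v h1 h2 h3, Or.inl rfl⟩
  · rintro (_ | ⟨u, _ | _⟩) (_ | ⟨v, _ | _⟩) h1 h2 <;> simp [Myc, mrel] at h1 h2 ⊢ <;>
      try omega
    · exact h.ind u v h1 h2
    · have := h.lt u; omega
    · have := h.lt v; omega
  · rintro (_ | ⟨u, _ | _⟩) (_ | ⟨v, _ | _⟩) h1 h2 h3 <;> simp [Myc, mrel] at h1 h2 h3 ⊢ <;>
      try omega
    exact h.six u v h1 h2 h3

theorem exists_good (j : ℕ) : ∃ (V : Type) (_ : Fintype V) (G : SimpleGraph V) (p : V → ℕ)
    (q : V → Fin 6), Good (j + 1) G p q := by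
  induction j with
  | zero => exact ⟨_, inferInstance, _, _, _, base⟩
  | succ j ih =>
    obtain ⟨V, _, G, p, q, h⟩ := ih
    exact ⟨_, inferInstance, _, _, _, step (by omega) h⟩

/-! ### two cliques are 4-colourable -/

theorem two_cliques {V : Type} [Fintype V] {G : SimpleGraph V} (h : NoK5 G) (X Y : V → Prop)
    (hX : ∀ u v, u ≠ v → X u → X v → G.Adj u v) (hY : ∀ u v, u ≠ v → Y u → Y v → G.Adj u v) :
    ∃ c : V → Fin 4, ∀ u v, G.Adj u v → (X u ∨ Y u) → (X v ∨ Y v) → c u ≠ c v := by
  classical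
  have cY : Fintype.card {y // Y y} ≤ Fintype.card (Fin 4) := by
    rw [Fintype.card_subtype, Fintype.card_fin]
    exact h.card_le fun u hu v hv huv => hY u v huv (by simpa using hu) (by simpa using hv)
  obtain ⟨g⟩ := Function.Embedding.nonempty_of_card_le cY
  let t : {x // X x ∧ ¬ Y x} → Finset (Fin 4) :=
    fun x => univ.filter fun c => ∀ y : {y // Y y}, G.Adj x.1 y.1 → g y ≠ c
  obtain ⟨f, finj, hf⟩ := (Finset.all_card_le_biUnion_card_iff_exists_injective t).1 (by
    intro S
    rcases S.eq_empty_or_nonempty with rfl | ⟨x0, hx0⟩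
    · simp
    let Z : Finset {y // Y y} := univ.filter fun y => ∀ x ∈ S, G.Adj x.1 y.1
    have h1 : (S.biUnion t)ᶜ ⊆ Z.map g := by
      intro c hc
      simp only [mem_compl, mem_biUnion, t, mem_filter, mem_univ, true_and, not_exists, not_and,
        not_forall, not_not] at hc
      obtain ⟨y, -, hy⟩ := hc x0 hx0
      refine mem_map.2 ⟨y, mem_filter.2 ⟨mem_univ _, fun x hx => ?_⟩, hy⟩
      obtain ⟨y', a, b⟩ := hc x hx
      rwa [g.injective (hy.trans b.symm)]
    have h2 := card_le_card h1
    rw [card_compl, card_map, Fintype.card_fin] at h2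
    have h3 : (S.map (Function.Embedding.subtype _) ∪ Z.map (Function.Embedding.subtype _)).card
        ≤ 4 := by
      apply h.card_le
      intro u hu v hv huv
      simp only [coe_union, Set.mem_union, mem_coe, mem_map, Function.Embedding.coe_subtype]
        at hu hv
      rcases hu with ⟨a, ha, rfl⟩ | ⟨a, ha, rfl⟩ <;> rcases hv with ⟨b, hb, rfl⟩ | ⟨b, hb, rfl⟩
      · exact hX _ _ huv a.2.1 b.2.1
      · exact (mem_filter.1 hb).2 a ha
      · exact ((mem_filter.1 ha).2 b hb).symm
      · exact hY _ _ huv a.2 b.2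
    rw [card_union_of_disjoint, card_map, card_map] at h3
    · omega
    · rw [Finset.disjoint_left]
      intro v h1 h2
      obtain ⟨a, -, rfl⟩ := mem_map.1 h1
      obtain ⟨b, -, hb⟩ := mem_map.1 h2
      exact a.2.2 ((show b.1 = a.1 from hb) ▸ b.2))
  have hf' : ∀ x (y : {y // Y y}), G.Adj x.1 y.1 → g y ≠ f x :=
    fun x => (mem_filter.1 (hf x)).2
  refine ⟨fun v => if hv : Y v then g ⟨v, hv⟩ else if hx : X v then f ⟨v, hx, hv⟩ else 0,
    fun u v huv hu hv => ?_⟩
  by_cases a : Y u <;> by_cases b : Y v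
  · simp only [a, b, dite_true]
    exact fun e => huv.ne (congrArg Subtype.val (g.injective e))
  · simp only [a, b, hv.resolve_right b, dite_true, dite_false]
    exact hf' ⟨v, hv.resolve_right b, b⟩ ⟨u, a⟩ huv.symm
  · simp only [a, b, hu.resolve_right a, dite_true, dite_false]
    exact (hf' ⟨u, hu.resolve_right a, a⟩ ⟨v, b⟩ huv).symm
  · simp only [a, b, hu.resolve_right a, hv.resolve_right b, dite_true, dite_false]
    exact fun e => huv.ne (congrArg Subtype.val (finj e))

/-! ### padding -/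

/-- component `none` is the whole graph, components `some t` are copies of the independent layers -/
def Pad {V : Type} (G : SimpleGraph V) (p : V → ℕ) (k : ℕ) :
    SimpleGraph {x : Option (Fin k) × V // x.1 = none ∨ 3 ≤ p x.2} where
  Adj x y := x.1.1 = y.1.1 ∧ G.Adj x.1.2 y.1.2
  symm := ⟨fun _ _ h => ⟨h.1.symm, h.2.symm⟩⟩
  loopless := ⟨fun _ h => G.irrefl h.2⟩

theorem result : ∀ k : ℕ, 5 ≤ k → ∃ (V : Type) (_ : Fintype V) (G : SimpleGraph V),
    G.cliqueNum < 5 ∧ IsLeast {m | Cocolorable G m} k ∧ G.chromaticNumber = (k + 3 : ℕ) := by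
  intro k hk
  classical
  obtain ⟨j, rfl⟩ : ∃ j, k = j + 1 + 3 := ⟨k - 4, by omega⟩
  obtain ⟨V, _, G, p, q, h⟩ := exists_good j
  have k5 : NoK5 (Pad G p (j + 1 + 3)) := fun f hf => h.k5 (fun i => (f i).1.2)
    fun a b hab => (hf a b hab).2
  refine ⟨_, inferInstance, Pad G p (j + 1 + 3), ?_, ⟨?_, ?_⟩, ?_⟩
  · obtain ⟨s, hs⟩ := (Pad G p (j + 1 + 3)).exists_isNClique_cliqueNum
    have := k5.card_le hs.isClique
    rw [hs.card_eq] at this
    omega
  · refine ⟨fun x => ⟨p x.1.2, h.lt _⟩, fun i => ?_⟩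
    by_cases hi : i.val < 3
    · left
      rintro ⟨⟨a, u⟩, hu⟩ e1 ⟨⟨b, v⟩, hv⟩ e2 hne
      have e1' : p u = i.val := congrArg Fin.val e1
      have e2' : p v = i.val := congrArg Fin.val e2
      simp only at hu hv
      have ha : a = none := hu.resolve_right (by omega)
      have hb : b = none := hv.resolve_right (by omega)
      subst ha hb
      exact ⟨rfl, h.cl u v (fun e => hne (by subst e; rfl)) (by omega) (by omega)⟩
    · right
      intro x e1 y e2 _ hadj
      have e1' : p x.1.2 = i.val := congrArg Fin.val e1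
      have e2' : p y.1.2 = i.val := congrArg Fin.val e2
      have := h.ind _ _ hadj.2 (by omega)
      omega
  · rintro m ⟨c, hc⟩
    by_contra hm
    push Not at hm
    let I : Fin m → Prop := fun i => (Pad G p (j + 1 + 3)).IsIndepSet {v | c v = i}
    have hcl : ∀ x y, c x = c y → ¬ I (c x) → x ≠ y → (Pad G p (j + 1 + 3)).Adj x y :=
      fun x y e hI hne => (hc (c x)).resolve_right hI rfl e.symm hne
    have hcard : Fintype.card {i // I i} + Fintype.card {i // ¬ I i} = m := by
      rw [Fintype.card_subtype_compl, Fintype.card_fin]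
      have : Fintype.card {i // I i} ≤ m := by simpa using Fintype.card_subtype_le I
      omega
    obtain ⟨t, ht⟩ : ∃ t : Fin (j + 1 + 3), ∀ v (hv : 3 ≤ p v), I (c ⟨(some t, v), Or.inr hv⟩) := by
      by_contra hcon
      push Not at hcon
      choose w hw hI using hcon
      have := Fintype.card_le_of_injective (fun t => c ⟨(some t, w t), Or.inr (hw t)⟩) (by
        intro a b hab
        by_contra hne
        have := (hcl _ _ hab (hI a) (fun e => hne (by simpa using congrArg (·.1.1) e))).1
        exact hne (by simpa using this))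
      simp at this
      omega
    have h1 : ¬ Fintype.card ({i // I i} ⊕ Fin 6) ≤ j + 1 + 5 := by
      intro hle
      refine h.nc (col_of hle (fun v => if hv : 3 ≤ p v then Sum.inl ⟨_, ht v hv⟩
        else Sum.inr (q v)) fun u v huv => ?_)
      split_ifs with a b b
      · intro e
        have e' : c ⟨(some t, u), Or.inr a⟩ = c ⟨(some t, v), Or.inr b⟩ := by simpa using e
        exact ht u a rfl e'.symm (fun e2 => huv.ne (congrArg (·.1.2) e2)) ⟨rfl, huv⟩
      · simp
      · simp
      · simpa using h.six u v huv (by omega) (by omega)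
    simp only [Fintype.card_sum, Fintype.card_fin] at h1
    obtain ⟨e⟩ := Function.Embedding.nonempty_of_card_le (α := {i // ¬ I i}) (β := Fin 2)
      (by simp only [Fintype.card_fin]; omega)
    let c0 : V → Fin m := fun v => c ⟨(none, v), Or.inl rfl⟩
    have hXY : ∀ (z : Fin 2) u v, u ≠ v → (∃ a : ¬ I (c0 u), e ⟨_, a⟩ = z) →
        (∃ a : ¬ I (c0 v), e ⟨_, a⟩ = z) → G.Adj u v := by
      rintro z u v huv ⟨a, ha⟩ ⟨b, hb⟩
      have := congrArg Subtype.val (e.injective (ha.trans hb.symm))
      exact (hcl _ _ this a fun e2 => huv (congrArg (·.1.2) e2)).2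
    obtain ⟨d, hd⟩ := two_cliques h.k5 _ _ (hXY 0) (hXY 1)
    have hI : ∀ u v, G.Adj u v → I (c0 u) → c0 u ≠ c0 v := fun u v huv a e' =>
      a rfl e'.symm (fun e2 => huv.ne (congrArg (·.1.2) e2)) ⟨rfl, huv⟩
    by_cases h0 : Fintype.card {i // ¬ I i} = 0
    · have hall : ∀ i, I i := by
        intro i
        by_contra a
        exact (Fintype.card_eq_zero_iff.1 h0).false ⟨i, a⟩
      exact h.nc (col_of (by simp; omega) c0 fun u v huv => hI u v huv (hall _))
    · refine h.nc (col_of (α := {i // I i} ⊕ Fin 4)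
        (by simp only [Fintype.card_sum, Fintype.card_fin]; omega)
        (fun v => if hv : I (c0 v) then Sum.inl ⟨_, hv⟩ else Sum.inr (d v)) fun u v huv => ?_)
      have two : ∀ v (a : ¬ I (c0 v)), (∃ a : ¬ I (c0 v), e ⟨_, a⟩ = 0) ∨
          (∃ a : ¬ I (c0 v), e ⟨_, a⟩ = 1) := by
        intro v a
        have : ∀ z : Fin 2, z = 0 ∨ z = 1 := by decide
        exact (this (e ⟨_, a⟩)).imp (fun x => ⟨a, x⟩) (fun x => ⟨a, x⟩)
      split_ifs with a b b
      · simpa using hI u v huv a
      · simp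
      · simp
      · simpa using hd u v huv (two u a) (two v b)
  · have : ((j + 1 + 3 + 3 : ℕ) : ℕ∞) = ((j + 1 + 5 : ℕ) : ℕ∞) + 1 := by push_cast; ring
    rw [this, chromaticNumber_eq_iff_colorable_not_colorable]
    constructor
    · refine col_of (α := Fin (j + 1) ⊕ Fin 6) (by simp) (fun x => if hv : 3 ≤ p x.1.2 then
        Sum.inl ⟨p x.1.2 - 3, by have := h.lt x.1.2; omega⟩ else Sum.inr (q x.1.2))
        fun u v huv => ?_
      split_ifs with a b b
      · intro e
        simp only [Sum.inl.injEq, Fin.mk.injEq] at e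
        have := h.ind _ _ huv.2 (by omega)
        omega
      · simp
      · simp
      · simpa using h.six _ _ huv.2 (by omega) (by omega)
    · rintro ⟨C⟩
      exact h.nc (col_of (by simp) (fun v => C ⟨(none, v), Or.inl rfl⟩)
        fun u v huv => C.valid ⟨rfl, huv⟩)

end Pool.Agent.Results.MP_a38e10_co.GapThree
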